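import Pool.Agent.D0H63.MR.NearPair
import Pool.Agent.Results.MP_290158_ag.UniversalHyperelliptic

/-!
# The period relations of ALL good approximations, over all number fields, of almost every member of the universal hyperelliptic
# family

For every `i` in a finite set let `C_i : y² = ∏_r (x - e_(i,r))`, `r ≤ n_i`, `n_i` even, be a hyperelliptic curve with marked
points over `x = z_(i,s)`, `s < m_i`; all branch points and all marked points are variable, `d` in number. The `numbers` are
the periods and quasi-periods of the curves `C_i`, the integrals of the first, the second and the third kind between the last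
branch point and the marked points, and the logarithms of the cross ratios; together with `π` they generate the periods of the
1-motives `H¹(C_i ∖ {x = z_(i,t)}, {x = z_(i,s)} ∪ {e_(i,n_i)})`. At real parameters they are the usual integrals (the starting
file `UniversalHyperelliptic`, from which all definitions are taken). The fibre of the torsor `B_P` over a point is given by
the relations of Riemann and Legendre.

Let `ξ` be a complex vector of parameters in the domain (`e_(i,0)`, …, `e_(i,n_i)`, `z_(i,0)`, … with increasing real parts) and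
`K ⊂ ℂ` a number field of degree `N`. We consider ALL parameters `x` with coordinates in `K` which are near to `ξ`. By
Minkowski's theorem there are for every `T` integers `q ≠ 0`, `p_j` of `K`, all conjugates at most `T`, for which
`|ξ_j - p_j / q|` is about `T ^ (-σ N)` with `σ = (1 + 1 / d) / 2` if `K` is not real and with `σ = 1 + 1 / d` if `K` and `ξ` are
real; for `K = ℚ` these are the best simultaneous approximations of a real `ξ`.

Theorem. There is a function `ω(T)` which tends to infinity such that for all `σ > 0` and all sequences `c` of complex numbers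
all `ξ` in the domain but a set of Hausdorff dimension at most `d / σ` have the following property. For ALL number fields `K` and
`L` in `ℂ`, all `C` and all large `T`: if `q ≠ 0` and the `p_j` are integers of `K`, all conjugates of which are at most `T`, and
`|ξ_j - p_j / q| ≤ C T ^ (-σ [K : ℚ])`, then all the relations of degree at most `ω(T)` in each variable, with coefficients in
the integers of `L` of size at most `T ^ ω(T)`, between the numbers at `p / q` and the powers of `π` (the constants `c_a`),
`a < ω(T)`, are consequences of the relations of Riemann and Legendre. For `σ > 1 / 2` this is true for almost all `ξ`, and for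
`σ > 1` for almost all real `ξ`. So, with these bounds for the heights, the fibres over all these points satisfy the degree-`δ`
statement for every `δ`, also for relations over larger fields.
If the `x_j` are arbitrary quotients of integers of `K` with conjugates at most `T` (the denominators depend on `j`), the same
is true with the dimension `2 (d - 1) / σ`.

The starting file `UniversalHyperelliptic` covers the exceptional parameters of height at most `T` by `T ^ o(1)` hypersurfaces
of degree `T ^ o(1)`; this excludes nothing near a given vector `ξ`, and the points which are considered here are very sparse.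
The proof combines it, for each denominator, with the Schwartz-Zippel lemma and with the lemma of Hausdorff and Cantelli.
-/

set_option autoImplicit false

namespace Pool.Agent.Results.MP_290158_ag.FieldApproximations

open Filter NumberField MeasureTheory Pool.Agent
open UniversalHyperelliptic (Params Coords Domain numbers Torsor value Generic Height Exceptional)

variable {ι : Type} [Fintype ι] [DecidableEq ι]

/-- the points `x j = p j / q`, where `q ≠ 0` and the `p j` are integers of `K` all the conjugates of which are at most `T` -/
def Common {X : Type} (K : Type) [Field K] [NumberField K] (T : ℝ) : Set (X → K) :=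
  {x | ∃ (q : 𝓞 K) (p : X → 𝓞 K), q ≠ 0 ∧ house (q : K) ≤ T ∧ ∀ j, house (p j : K) ≤ T ∧ x j = (p j : K) / q}

/-- the points all the coordinates of which are quotients of integers of `K` all the conjugates of which are at most `T` -/
def Independent {X : Type} (K : Type) [Field K] [NumberField K] (T : ℝ) : Set (X → K) :=
  {x | ∀ j, x j ∈ Height K T}

/-- For all number fields `K` and `L` in `ℂ`, all `C` and all large `T`: for all the points `x` in `S K T` which are within
`C T ^ (-σ [K : ℚ])` of `ξ` in each coordinate the relations over `L` of degree at most `ω T` and of size at most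
`T ^ ω T` between the numbers at `x` and the powers of `π`, respectively the constants `c a`, hold on the torsor. -/
def Good (n m : ι → ℕ) (ω : ℝ → ℕ) (c : ℕ → ℂ) (σ : ℝ)
    (S : ∀ (K : Type) [Field K] [NumberField K], ℝ → Set (Params n m → K)) (ξ : Params n m → ℂ) : Prop :=
  ∀ (K L : IntermediateField ℚ ℂ) [NumberField K] [NumberField L] (C : ℝ), ∀ᶠ T : ℝ in atTop, ∀ x ∈ S K T,
    (∀ j, ‖ξ j - (x j : ℂ)‖ ≤ C * T ^ (-(σ * Module.finrank ℚ K))) →
      Generic n m (ω T) L (algebraMap L ℂ) (fun a => c a) T (fun j => (x j : ℂ))

theorem domain_open (n m : ι → ℕ) : IsOpen (Domain n m) := by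
  unfold Domain
  simp only [Set.setOf_forall, Set.setOf_and]
  refine isOpen_iInter_of_finite fun i => ?_
  refine IsOpen.inter ?_ (IsOpen.inter ?_ ?_)
  · refine isOpen_iInter_of_finite fun r => isOpen_iInter_of_finite fun s => isOpen_iInter_of_finite fun _ => ?_
    exact isOpen_lt (Complex.continuous_re.comp (continuous_apply _)) (Complex.continuous_re.comp (continuous_apply _))
  · refine isOpen_iInter_of_finite fun s => ?_
    exact isOpen_lt (Complex.continuous_re.comp (continuous_apply _)) (Complex.continuous_re.comp (continuous_apply _))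
  · refine isOpen_iInter_of_finite fun r => isOpen_iInter_of_finite fun s => isOpen_iInter_of_finite fun _ => ?_
    exact isOpen_lt (Complex.continuous_re.comp (continuous_apply _)) (Complex.continuous_re.comp (continuous_apply _))

theorem generic_mono {n m : ι → ℕ} {k : ℕ} {K : Type} [Field K] [NumberField K] {io : K →+* ℂ} {ξ : Fin k → ℂ}
    {T T' : ℝ} (hT : 0 ≤ T) (h : T ≤ T') {x : Params n m → ℂ} (hG : Generic n m k K io ξ T' x) :
    Generic n m k K io ξ T x := by
  intro c hc
  exact hG c fun l a φ => (hc l a φ).trans (pow_le_pow_left₀ hT h k)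

theorem generic_sub {n m : ι → ℕ} {k : ℕ} {L M : Type} [Field L] [NumberField L] [Field M] [NumberField M]
    (f : L →+* M) {io : L →+* ℂ} {io' : M →+* ℂ} (hio : ∀ a, io' (f a) = io a) {ξ : Fin k → ℂ} {T : ℝ}
    {x : Params n m → ℂ} (hG : Generic n m k M io' ξ T x) : Generic n m k L io ξ T x := by
  intro c hc
  have h := hG (fun l a => RingOfIntegers.mapRingHom f (c l a)) (fun l a φ => hc l a (φ.comp f))
  have e : ∀ l a, io' ((RingOfIntegers.mapRingHom f (c l a) : 𝓞 M) : M) = io (c l a : L) := fun l a => hio _
  simp only [e] at h
  exact h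

/-- **Theorem.** Let `n i` be even natural numbers and `m i` natural numbers, `i` in a finite nonempty set, and let `d` be the
number of the parameters, `∑ (n i + 1 + m i)`. There is `ω → ∞` such that for all `σ > 0` and all sequences `c` of complex
numbers: (a) all `ξ` in `Domain n m` but a set of Hausdorff dimension at most `d / σ` are good for the points with a common
denominator (`Common`), in particular almost all `ξ` in `Domain n m` if `σ > 1 / 2` and almost all real `ξ` in
`Domain n m` if `σ > 1`; (b) all `ξ` in `Domain n m` but a set of dimension at most `2 (d - 1) / σ` are good for the points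
with arbitrary denominators (`Independent`), in particular almost all `ξ` if `σ > (d - 1) / d` and almost all real `ξ` if
`σ > 2 (d - 1) / d`. -/
theorem result [Nonempty ι] (n m : ι → ℕ) (hn : ∀ i, Even (n i)) :
    ∃ ω : ℝ → ℕ, Tendsto ω atTop atTop ∧ ∀ (σ : ℝ), 0 < σ → ∀ c : ℕ → ℂ,
      (dimH {ξ | ξ ∈ Domain n m ∧ ¬ Good n m ω c σ (fun K _ _ T => Common K T) ξ} ≤
          ENNReal.ofReal (Fintype.card (Params n m) / σ) ∧
        (1 / 2 < σ → ∀ᵐ ξ : Params n m → ℂ, ξ ∈ Domain n m → Good n m ω c σ (fun K _ _ T => Common K T) ξ) ∧
        (1 < σ → ∀ᵐ ξ : Params n m → ℝ, (fun j => (ξ j : ℂ)) ∈ Domain n m →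
          Good n m ω c σ (fun K _ _ T => Common K T) fun j => (ξ j : ℂ))) ∧
      (dimH {ξ | ξ ∈ Domain n m ∧ ¬ Good n m ω c σ (fun K _ _ T => Independent K T) ξ} ≤
          ENNReal.ofReal (2 * ((Fintype.card (Params n m) : ℝ) - 1) / σ) ∧
        (((Fintype.card (Params n m) : ℝ) - 1) / Fintype.card (Params n m) < σ → ∀ᵐ ξ : Params n m → ℂ,
          ξ ∈ Domain n m → Good n m ω c σ (fun K _ _ T => Independent K T) ξ) ∧
        (2 * ((Fintype.card (Params n m) : ℝ) - 1) / Fintype.card (Params n m) < σ → ∀ᵐ ξ : Params n m → ℝ,
          (fun j => (ξ j : ℂ)) ∈ Domain n m →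
            Good n m ω c σ (fun K _ _ T => Independent K T) fun j => (ξ j : ℂ))) := by
  classical
  obtain ⟨i0⟩ := ‹Nonempty ι›
  have hne : Nonempty (Params n m) := ⟨⟨i0, Sum.inl 0⟩⟩
  have hne' : Nonempty ι := ⟨i0⟩
  obtain ⟨ω, T₀, hω, -, H⟩ := (UniversalHyperelliptic.result n m hn).2.2.2
  have hd : 1 ≤ Fintype.card (Params n m) := Fintype.card_pos
  have hd' : (1 : ℝ) ≤ Fintype.card (Params n m) := by exact_mod_cast hd
  have hd0 : (0 : ℝ) < Fintype.card (Params n m) := by linarith
  refine ⟨fun T => ω (2 ^ D0H63.MR.lv T), hω.comp D0H63.MR.two_lv_tendsto, fun σ hσ c => ?_⟩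
  obtain ⟨⟨E, h1, h2⟩, E', h1', h2'⟩ := D0H63.MR.near_pair (Domain n m) (domain_open n m) ω hω
    (fun L T x => ∀ _ : NumberField L, Generic n m (ω T) L (algebraMap L ℂ) (fun a => c a) T x)
    (fun L M _ _ T x hLM hG _ => by
      have hM : NumberField M := inferInstance
      exact generic_sub (IntermediateField.inclusion hLM).toRingHom (fun a => rfl) (hG hM))
    ⟨T₀, fun T hT K _ hK => by
      obtain ⟨-, h1⟩ := H T hT
      obtain ⟨⟨Φ, hΦ1, hΦ2, hΦ3⟩, -, -⟩ := h1 K hK (algebraMap K ℂ) (fun a => c a)
      refine ⟨Φ, hΦ1, hΦ2, ?_⟩
      rintro _ ⟨e, ⟨h5, h6, h7⟩, rfl⟩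
      exact hΦ3 e ⟨h5, h6, fun h8 => h7 fun _ => h8⟩⟩ hσ
  have hA : ∀ ξ ∈ Domain n m, ξ ∉ E → Good n m (fun T => ω (2 ^ D0H63.MR.lv T)) c σ (fun K _ _ T => Common K T) ξ := by
    intro ξ hξ hξE K L _ _ C
    filter_upwards [h2 ξ hξ hξE K L C, eventually_ge_atTop 1] with T hT hT1 x hx hclose
    exact generic_mono (by linarith) (D0H63.MR.lv_spec hT1).1 (hT x hx hclose inferInstance)
  have hB : ∀ ξ ∈ Domain n m, ξ ∉ E' →
      Good n m (fun T => ω (2 ^ D0H63.MR.lv T)) c σ (fun K _ _ T => Independent K T) ξ := by
    intro ξ hξ hξE K L _ _ C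
    filter_upwards [h2' ξ hξ hξE K L C, eventually_ge_atTop 1] with T hT hT1 x hx hclose
    exact generic_mono (by linarith) (D0H63.MR.lv_spec hT1).1 (hT x hx hclose inferInstance)
  refine ⟨?_, ?_⟩
  · obtain ⟨h1, h2, h3⟩ := D0H63.MR.ae_of_dim (by positivity) h1 hA
    refine ⟨h1, fun h4 => h2 ?_, fun h4 => h3 ?_⟩
    · rw [div_lt_iff₀ hσ]
      nlinarith
    · rw [div_lt_iff₀ hσ]
      nlinarith
  · have h0 : (0 : ℝ) ≤ 2 * ((Fintype.card (Params n m) : ℝ) - 1) := by linarith
    obtain ⟨h1, h2, h3⟩ := D0H63.MR.ae_of_dim (div_nonneg h0 hσ.le) h1' hB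
    refine ⟨h1, fun h4 => h2 ?_, fun h4 => h3 ?_⟩
    · rw [div_lt_iff₀ hσ]
      rw [div_lt_iff₀ hd0] at h4
      linarith
    · rw [div_lt_iff₀ hσ]
      rw [div_lt_iff₀ hd0] at h4
      linarith

end Pool.Agent.Results.MP_290158_ag.FieldApproximations
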