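import Pool.Agent.D0H71.CM.Keep
import Pool.Agent.Results.MP_290158_ag.MultiplicativeValues

/-!
# Period relations in the hypergeometric families at the values of compositions of multiplicative functions

Let `β_1, …, β_m` be rational numbers which are not integers. Consider the fibres `z = 1 / ξ` of the hypergeometric family
of Calabi–Yau type with the exponents `±β_j`. Let `F_1, …, F_k` be ANY compositions `f_1 ∘ f_2 ∘ ... ∘ f_s` of positive
multiplicative functions of at most polynomial growth which are at most linear and injective at the large primes: for example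
`F_i(v) = φ(σ(φ(v)))`. For all `(v_1, …, v_k) ∈ {1, …, N}^k` but `N^k / (log N)^U` there are no exceptional
relations of degree `≤ δ` between the logarithms and the periods of the fibres `z_i = 1 / F_i(v_i)`, with coefficients in
`L V`, `L` any number field of degree `≤ d`, for a given space `V` of constants.

The starting theorem `MultiplicativeValues` of this problem is the case of single multiplicative functions. A composition is not
multiplicative, and nothing was known about its fibres, which are in general very large. The tool is `Pool.Agent.D0H71.CM`: for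
almost all `m` one has `F m = u v` with `u ≤ N^η` and `v` squarefree, coprime to `u`, free of prime factors below
`(log log N)^B`, and with few prime factors between this bound and small powers of `N`; the property passes from `F` to `f ∘ F`.
-/

set_option autoImplicit false

namespace Pool.Agent.Results.MP_290158_ag.IteratedFunctions

open Pool.Agent.N733.TG (LM lm_totient lm_sigma)
open Pool.Agent.D0H71.CM (Comp av_comp ckeep_tuples2)
open Pool.Agent.Results.MP_290158_ag.HypergeometricAlgebraicPoints (Exceptional House)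
open Pool.Agent.Results.MP_290158_ag.MultiplicativeValues (house_nat house_finite)

/-- **Period relations at the values of compositions of multiplicative functions.** Let `β` be a finite non-empty family of rational numbers
which are not integers. For all `k ≥ 1`, `d`, `δ`, `D`, all compositions `F_1, …, F_k` of functions of the class `LM` and all `U` there is
`N_0` such that for all `N ≥ N_0`, every `ℚ`-space `V` of constants of dimension `≤ D` and all constant matrices `Ω_i`, for all
`v ∈ {1, …, N}^k` but at most `N^k / (log N)^U`, the numbers `ξ_i = F_i(v_i)` are at least `2` and the tuple of the fibres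
`z_i = 1 / ξ_i` is not exceptional. Euler's function and the sum of the divisors have the property `LM`. -/
theorem result {m : ℕ} (hm : 1 ≤ m) (β : Fin m → ℚ) (hβ : ∀ j, ∀ a : ℤ, β j ≠ a) :
    (∀ k d δ D : ℕ, 1 ≤ k → ∀ F : Fin k → ℕ → ℕ, (∀ i, Comp (F i)) → ∀ U : ℕ, ∃ N₀ : ℕ, ∀ N : ℕ, N₀ ≤ N →
      ∀ V : Submodule ℚ ℂ, Module.Finite ℚ V → Module.finrank ℚ V ≤ D →
      ∀ Ω : Fin k → Matrix (Fin (2 * m)) (Fin (2 * m)) ℂ,
      ({v : Fin k → ℕ | (∀ i, 1 ≤ v i ∧ v i ≤ N) ∧ ¬ ((∀ i, 2 ≤ F i (v i)) ∧
        ¬ Exceptional δ d V β Ω (fun i => ((F i (v i) : ℕ) : ℂ)))}.ncard : ℝ) ≤ (N : ℝ) ^ k / Real.log N ^ U) ∧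
    LM Nat.totient ∧ LM (fun m => ∑ d ∈ m.divisors, d) := by
  classical
  refine ⟨fun k d δ D hk F hF U => ?_, lm_totient, lm_sigma⟩
  obtain ⟨c, C, hc, h⟩ := (Pool.Agent.Results.MP_290158_ag.HypergeometricAlgebraicPoints.result hm β hβ).2.2
    k 1 d δ D le_rfl
  obtain ⟨N₀, hN₀⟩ := ckeep_tuples2 hk (fun i => av_comp (hF i)) hc U (|C| * 3 ^ k)
  refine ⟨N₀, fun N hN V hV hVD Ω => ?_⟩
  exact hN₀ N hN {w : Fin k → ℕ | Exceptional δ d V β Ω (fun i => ((w i : ℕ) : ℂ))} (fun X hX => by
    have hX1 : (1 : ℝ) ≤ X := by exact_mod_cast hX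
    have h1 := h V hV hVD Ω X hX
    obtain ⟨hf1, hf2⟩ := house_finite X
    have hfin : {ξ : Fin k → ℂ | (∀ i, House 1 X (ξ i)) ∧ Exceptional δ d V β Ω ξ}.Finite := by
      refine (Set.Finite.pi' (fun _ : Fin k => hf1)).subset ?_
      intro ξ hξ i
      exact hξ.1 i
    have h2 : {w : Fin k → ℕ | (∀ i, 2 ≤ w i ∧ w i ≤ X) ∧ w ∈ {w : Fin k → ℕ | Exceptional δ d V β Ω
        (fun i => ((w i : ℕ) : ℂ))}}.ncard ≤
        {ξ : Fin k → ℂ | (∀ i, House 1 X (ξ i)) ∧ Exceptional δ d V β Ω ξ}.ncard := by
      refine Set.ncard_le_ncard_of_injOn (fun (w : Fin k → ℕ) (i : Fin k) => ((w i : ℕ) : ℂ)) ?_ ?_ hfin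
      · intro w hw
        exact ⟨fun i => house_nat (hw.1 i).2, hw.2⟩
      · intro a _ b _ hab
        funext i
        have := congrFun hab i
        simp only at this
        exact_mod_cast this
    have h3 : (((({ξ : ℂ | House 1 X ξ}.ncard : ℕ) : ℝ)) ^ k) ≤ (3 * (X : ℝ)) ^ k := by
      apply pow_le_pow_left₀ (by positivity)
      have : (({ξ : ℂ | House 1 X ξ}.ncard : ℕ) : ℝ) ≤ 2 * X + 1 := by exact_mod_cast hf2
      linarith
    calc (({w : Fin k → ℕ | (∀ i, 2 ≤ w i ∧ w i ≤ X) ∧ w ∈ {w : Fin k → ℕ | Exceptional δ d V β Ω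
          (fun i => ((w i : ℕ) : ℂ))}}.ncard : ℕ) : ℝ)
        ≤ (({ξ : Fin k → ℂ | (∀ i, House 1 X (ξ i)) ∧ Exceptional δ d V β Ω ξ}.ncard : ℕ) : ℝ) := by exact_mod_cast h2
      _ ≤ C * (X : ℝ) ^ (-c) * (({ξ : ℂ | House 1 X ξ}.ncard : ℕ) : ℝ) ^ k := h1
      _ ≤ |C| * (X : ℝ) ^ (-c) * (({ξ : ℂ | House 1 X ξ}.ncard : ℕ) : ℝ) ^ k := by
          gcongr
          exact le_abs_self C
      _ ≤ |C| * (X : ℝ) ^ (-c) * (3 * (X : ℝ)) ^ k := by gcongr
      _ = |C| * 3 ^ k * (X : ℝ) ^ ((k : ℝ) - c) := by
          rw [mul_pow, show (k : ℝ) - c = -c + k by ring, Real.rpow_add (by linarith), Real.rpow_natCast]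
          ring)

end Pool.Agent.Results.MP_290158_ag.IteratedFunctions
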