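import Mathlib
import Pool.Agent.D0H75.LS.Mat

/-!
# The degree-`δ` statement for products of Legendre curves at `S`-units: `O (log log Y)` exceptions, growing degree

We consider the family `E_λ : y² = x (x - 1) (x - λ)` and its `k`-th power over `S = (ℙ¹ ∖ {0, 1, ∞}) ^ k`, `j = 1`. For real `λ`,
`0 < λ < 1`, the periods of the forms `dx / y` and `(1 - x) dx / y` over the loops around `[0, λ]` and `[λ, 1]` are, up to the
factors `4` and `4 i` of the columns, the entries of the matrix

  `M(λ) = (K(λ), K(1 - λ); E(λ), K(1 - λ) - E(1 - λ))`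

with the complete elliptic integrals `K`, `E`; `det M(λ) = - π / 2` (Legendre). The fibre `B_(P,s)` over the point
`s = (x_1, …, x_k)` consists of the tuples `(M_1, …, M_k)` of invertible matrices with equal determinants (the generic
Mumford-Tate group has dimension `3k + 1`). So the degree-`δ` statement at `s` says that every polynomial of degree `≤ δ` which
vanishes at `(M(x_1), …, M(x_k))` vanishes at all tuples of invertible matrices with equal determinants (`DegreeStatement`, where
all coefficient fields of degree `≤ δ` are allowed). We also consider relations with coefficients in the field generated by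
`π`, by the logarithms of given natural numbers `a_1, …, a_s ≥ 2` and by arbitrary given complex numbers `w_1, …, w_q`: they
should hold at all tuples of matrices with determinant `- π / 2` (`RelationsHold`; it implies `DegreeStatement`).

Fix `k`, `q`, `s`. There is a number `C` such that for all `δ`, `a_1, …, a_s ≥ 2` and `w_1, …, w_q` the following holds, for
relations of degree `≤ δ` over number fields of degree `≤ δ`, without any bound for the heights of the coefficients.

1. (Windows of multiples.) Let `(H + 2) ^ ((δ + 2) ^ C) ≤ t`. After the deletion of `q + s + 2` numbers from the set of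
   the products `g ≤ H` of powers of the `a_i`, `RelationsHold` is true at all points `(g_1 / t, …, g_k / t)` with distinct
   remaining `g_i`.
2. (`S`-units.) Let `Λ` be a set of rational numbers of the form `x = A / B`, `A` and `B` products of powers of the `a_i`,
   with `A < B`, `A ^ ((δ + 2) ^ C) ≤ B ≤ Y`. `RelationsHold` is true at all points of `Λ ^ k` except for at most
   `(δ + 2) ^ C log log Y · |Λ| ^ (k - 1)` of them.
3. `RelationsHold` implies `DegreeStatement`.

For example, let `k = 1` and `Λ = {a ^ (-e) : a ^ e ≤ Y}`, a set with about `log Y / log a` elements: all but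
`(δ + 2) ^ C log log Y` of the curves `E_λ`, `λ = a ^ (-e)`, satisfy the degree-`δ` statement; here `δ` can be as
large as a power of `log Y`. For `s` primes `Λ` can have about `(log Y) ^ s` elements. It is known that the statement holds
for almost all integers in families `y² = g(x) (x - t)`, and the starting files bound the number of the exceptions in windows
of integers `t - G u`, and up to `T` by `T ^ (1 - c)`; this gives nothing for sets of this size.

The proof. Instead of the functions `K(x / (1 - g x))` for different `g`, which give the values at `1 / (t - g)`, we use the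
functions `K(g x)`, `E(g x)` and their companions. Their monomials are G-systems with constants which are
polynomial in `g` and exponential in the degree (`D0H75/LS/Base`, `D0H75/LS/Fin`), they are linearly independent as the functions
are singular at the different points `1 / g` (`D0H75/LS/LI`), and the theorem of the starting library on the values of
G-functions at `1 / t` and the elimination of unknown constants apply (`D0H75/LS/Val`, `D0H75/LS/Win`). As
`log (g / t) = log g - log t` the constants are `π`, `log t`, the `log a_i` and the `w_j`, whatever the number of the multiples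
`g` is. By rounding the exponents, in terms of the weights `log a_i`, one needs `O (log log Y)` windows (`D0H75/LS/Cov`; the
method is that of `R351/SU/NearC` for the logarithms of integers close to `S`-units). The passage to the matrices is in
`D0H75/LS/Mat`.
-/

set_option autoImplicit false

namespace Pool.Agent.Results.MP_290158_ag.LegendreSUnits

open Module

/-- Complete elliptic integral of the first kind, `K(x) = ∫_0^{π/2} dθ / √(1 - x sin² θ)`. -/
noncomputable def K (x : ℝ) : ℝ := ∫ θ in (0 : ℝ)..(Real.pi / 2), 1 / √(1 - x * Real.sin θ ^ 2)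

/-- Complete elliptic integral of the second kind, `E(x) = ∫_0^{π/2} √(1 - x sin² θ) dθ`. -/
noncomputable def E (x : ℝ) : ℝ := ∫ θ in (0 : ℝ)..(Real.pi / 2), √(1 - x * Real.sin θ ^ 2)

/-- The period matrix of the curve `y² = x (x - 1) (x - λ)`, up to the factors `4` and `4 i` of the columns. -/
noncomputable def periodMatrix (x : ℝ) : Matrix (Fin 2) (Fin 2) ℂ :=
  !![(K x : ℂ), (K (1 - x) : ℂ); (E x : ℂ), (K (1 - x) : ℂ) - (E (1 - x) : ℂ)]

/-- The `4k` entries of a tuple of matrices. -/
def entries {k : ℕ} (M : Fin k → Matrix (Fin 2) (Fin 2) ℂ) (p : Fin k × Fin 2 × Fin 2) : ℂ := M p.1 p.2.1 p.2.2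

/-- The constants `π`, `log a_1, …, log a_s`, `w_1, …, w_q`. -/
noncomputable def constants {s q : ℕ} (a : Fin s → ℕ) (w : Fin q → ℂ) (o : Option (Fin s ⊕ Fin q)) : ℂ :=
  o.elim (Real.pi : ℂ) (Sum.elim (fun i => ((Real.log (a i) : ℝ) : ℂ)) w)

/-- The relations of degree at most `δ` over number fields of degree at most `δ` between the constants and the entries of the
period matrices at the points `x_1, …, x_k` hold at all tuples of matrices with determinant `- π / 2`. -/
def RelationsHold {s q k : ℕ} (δ : ℕ) (a : Fin s → ℕ) (w : Fin q → ℂ) (x : Fin k → ℚ) : Prop :=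
  ∀ F : IntermediateField ℚ ℂ, FiniteDimensional ℚ F → finrank ℚ F ≤ δ →
    ∀ P : MvPolynomial (Option (Fin s ⊕ Fin q) ⊕ Fin k × Fin 2 × Fin 2) F, P.totalDegree ≤ δ →
      MvPolynomial.aeval (Sum.elim (constants a w) (entries fun i => periodMatrix ((x i : ℚ) : ℝ))) P = 0 →
      ∀ M : Fin k → Matrix (Fin 2) (Fin 2) ℂ, (∀ i, (M i).det = -(Real.pi : ℂ) / 2) →
        MvPolynomial.aeval (Sum.elim (constants a w) (entries M)) P = 0

/-- The degree-`δ` statement at the point `(x_1, …, x_k)`: the relations of degree at most `δ` over number fields of degree at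
most `δ` between the entries of the period matrices hold at all tuples of invertible matrices with equal determinants. -/
def DegreeStatement {k : ℕ} (δ : ℕ) (x : Fin k → ℚ) : Prop :=
  ∀ F : IntermediateField ℚ ℂ, FiniteDimensional ℚ F → finrank ℚ F ≤ δ →
    ∀ P : MvPolynomial (Fin k × Fin 2 × Fin 2) F, P.totalDegree ≤ δ →
      MvPolynomial.aeval (entries fun i => periodMatrix ((x i : ℚ) : ℝ)) P = 0 →
      ∀ (M : Fin k → Matrix (Fin 2) (Fin 2) ℂ) (D : ℂ), D ≠ 0 → (∀ i, (M i).det = D) →
        MvPolynomial.aeval (entries M) P = 0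

/-- The products `a_1^{m_1} ⋯ a_s^{m_s}`, `m_i ≥ 0`. -/
def IsProduct {s : ℕ} (a : Fin s → ℕ) (n : ℕ) : Prop := ∃ m : Fin s → ℕ, n = ∏ i, a i ^ m i

/-- The quotients `x = A / B < 1` of two products of powers of the `a_i` with `A ^ N ≤ B ≤ Y`. -/
def Near {s : ℕ} (a : Fin s → ℕ) (N Y : ℕ) (x : ℚ) : Prop :=
  ∃ A B : ℕ, IsProduct a A ∧ IsProduct a B ∧ x = (A : ℚ) / B ∧ A < B ∧ A ^ N ≤ B ∧ B ≤ Y

theorem isProduct_pos {s : ℕ} {a : Fin s → ℕ} (ha : ∀ i, 2 ≤ a i) {n : ℕ} (h : IsProduct a n) : 0 < n := by
  obtain ⟨m, rfl⟩ := h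
  exact Finset.prod_pos fun i _ => pow_pos (by have := ha i; omega) _

open Classical in
/-- **Main result.** -/
theorem result (k q s : ℕ) : ∃ C : ℕ, ∀ (δ : ℕ) (a : Fin s → ℕ) (w : Fin q → ℂ), (∀ i, 2 ≤ a i) →
    (∀ H t : ℕ, (H + 2) ^ ((δ + 2) ^ C) ≤ t → ∃ S : Finset ℕ, S.card ≤ q + s + 2 ∧
      ∀ g : Fin k → ℕ, Function.Injective g → (∀ i, IsProduct a (g i) ∧ g i ≤ H ∧ g i ∉ S) →
        RelationsHold δ a w fun i => (g i : ℚ) / t) ∧
    (∀ Y : ℕ, 16 ≤ Y → ∀ Λ : Finset ℚ, (∀ x ∈ Λ, Near a ((δ + 2) ^ C) Y x) →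
      ((((Fintype.piFinset fun _ : Fin k => Λ).filter fun x => ¬ RelationsHold δ a w x).card : ℕ) : ℝ) ≤
        ((δ : ℝ) + 2) ^ C * Real.log (Real.log Y) * (Λ.card : ℝ) ^ (k - 1)) ∧
    (∀ x : Fin k → ℚ, RelationsHold δ a w x → DegreeStatement δ x) := by
  obtain ⟨E₁, ⟨C₁, hC₁⟩, h₁⟩ := Pool.Agent.D0H75.LS.window k q s
  obtain ⟨C₂, h₂⟩ := Pool.Agent.D0H75.LS.main_tuples k q s
  have hpow : ∀ (δ c : ℕ), c ≤ C₁ + C₂ → ((k + 1) * δ + 2) ^ c ≤ (δ + 2) ^ ((k + 1) * (C₁ + C₂)) := by
    intro δ c hc
    have h1 : (k + 1) * δ + 2 ≤ (δ + 2) ^ (k + 1) := by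
      have h2 : k + 1 ≤ 2 ^ k := Nat.lt_two_pow_self
      calc (k + 1) * δ + 2 ≤ (k + 1) * (δ + 2) := by nlinarith
        _ ≤ 2 ^ k * (δ + 2) := Nat.mul_le_mul_right _ h2
        _ ≤ (δ + 2) ^ k * (δ + 2) := Nat.mul_le_mul_right _ (Nat.pow_le_pow_left (by omega) k)
        _ = (δ + 2) ^ (k + 1) := (pow_succ _ _).symm
    calc ((k + 1) * δ + 2) ^ c ≤ ((δ + 2) ^ (k + 1)) ^ c := Nat.pow_le_pow_left h1 c
      _ = (δ + 2) ^ ((k + 1) * c) := (pow_mul _ _ _).symm
      _ ≤ (δ + 2) ^ ((k + 1) * (C₁ + C₂)) := Nat.pow_le_pow_right (by omega) (Nat.mul_le_mul_left _ hc)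
  have hstmt : ∀ (δ : ℕ) (a : Fin s → ℕ) (w : Fin q → ℂ) (x : Fin k → ℚ), (∀ i, 0 < x i ∧ x i < 1) →
      ¬ Pool.Agent.R351.GD.RelK ((k + 1) * δ) (Pool.Agent.D0H75.LS.cst a w)
        (fun p : Fin k × Fin 3 => Pool.Agent.D0H75.LS.pr ((x p.1 : ℚ) : ℝ) p.2) → RelationsHold δ a w x := by
    intro δ a w x hx hR F hF hFd P hP h0 M hM
    refine Pool.Agent.D0H75.LS.stmt (υ := Fin s ⊕ Fin q) (Pool.Agent.D0H75.LS.cst a w) rfl
      (x := fun i => ((x i : ℚ) : ℝ)) (fun i => ?_) hR F hF hFd P hP h0 M hM
    obtain ⟨h1, h2⟩ := hx i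
    constructor
    · exact_mod_cast h1
    · exact_mod_cast h2
  refine ⟨(k + 1) * (C₁ + C₂), fun δ a w ha => ⟨fun H t ht => ?_, fun Y hY Λ hΛ => ?_, fun x hx => ?_⟩⟩
  · have hE : E₁ ((k + 1) * δ) ≤ (δ + 2) ^ ((k + 1) * (C₁ + C₂)) := (hC₁ _).trans (hpow δ C₁ (by omega))
    obtain ⟨S, hS, h⟩ := h₁ ((k + 1) * δ) H t ((Nat.pow_le_pow_right (by omega) hE).trans ht) a (Fin q) w
      (by rw [Fintype.card_fin])
    refine ⟨S, hS, fun g hg hgb => hstmt δ a w _ (fun i => ?_) fun hR => ?_⟩
    · have h1 : 0 < g i := isProduct_pos ha (hgb i).1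
      have h2 : g i < t := by
        have h3 : H + 2 ≤ t := by
          refine le_trans ?_ ht
          exact Nat.le_self_pow (pow_ne_zero _ (by omega)) _
        have := (hgb i).2.1
        omega
      have h4 : (0 : ℚ) < t := by exact_mod_cast (by omega : 0 < t)
      constructor
      · exact div_pos (by exact_mod_cast h1) h4
      · rw [div_lt_one h4]
        exact_mod_cast h2
    · refine h g hg (fun i => ?_) ?_
      · obtain ⟨⟨m, hm⟩, h3, h4⟩ := hgb i
        have hm' : g i = Pool.Agent.D0H75.LS.pp a m := hm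
        refine ⟨?_, h3, h4, fun j => (m j : ℚ), ?_⟩
        · rw [hm']
          exact Pool.Agent.D0H75.LS.pp_pos ha m
        · rw [hm', Pool.Agent.D0H75.LS.pp_log ha]
          simp
      · have h5 : (fun p : Fin k × Fin 3 => Pool.Agent.D0H75.LS.pr ((((g p.1 : ℕ) : ℚ) / (t : ℚ) : ℚ) : ℝ) p.2) =
            fun p : Fin k × Fin 3 => Pool.Agent.D0H75.LS.pr ((g p.1 : ℝ) / t) p.2 := by
          funext p
          have h6 : ((((g p.1 : ℕ) : ℚ) / (t : ℚ) : ℚ) : ℝ) = (g p.1 : ℝ) / t := by push_cast; rfl
          rw [h6]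
        rw [← h5]
        exact hR
  · refine le_trans ?_ (le_trans (h₂ ((k + 1) * δ) a ha w Y hY Λ fun x hx => ?_) ?_)
    · rw [Nat.cast_le]
      refine Finset.card_le_card fun x hx => ?_
      rw [Finset.mem_filter] at hx ⊢
      refine ⟨hx.1, ?_⟩
      by_contra hR
      refine hx.2 (hstmt δ a w x (fun i => ?_) hR)
      obtain ⟨A, B, hA, hB, hxe, hAB, -, -⟩ := hΛ (x i) ((Fintype.mem_piFinset.mp hx.1) i)
      have hA0 : (0 : ℚ) < A := by exact_mod_cast isProduct_pos ha hA
      have hB0 : (0 : ℚ) < B := by exact_mod_cast isProduct_pos ha hB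
      rw [hxe]
      constructor
      · exact div_pos hA0 hB0
      · rw [div_lt_one hB0]
        exact_mod_cast hAB
    · obtain ⟨A, B, ⟨n, hn⟩, ⟨m, hm⟩, hxe, -, hN, hBY⟩ := hΛ x hx
      have hn' : A = Pool.Agent.D0H75.LS.pp a n := hn
      have hm' : B = Pool.Agent.D0H75.LS.pp a m := hm
      refine ⟨n, m, ?_, ?_, ?_⟩
      · rw [hxe, hn', hm']
      · rw [← hm']
        exact hBY
      · rw [← hm', ← hn']
        refine (Nat.pow_le_pow_right ?_ (hpow δ C₂ (by omega))).trans hN
        rw [hn']
        exact Pool.Agent.D0H75.LS.pp_pos ha n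
    · have hLL := Pool.Agent.D0H75.LS.loglog16 hY
      refine mul_le_mul_of_nonneg_right (mul_le_mul_of_nonneg_right ?_ (by linarith)) (by positivity)
      have h6 := hpow δ C₂ (by omega)
      exact_mod_cast h6
  · intro F hF hFd P hP h0 M D hD hM
    have hren : ∀ (N : Fin k → Matrix (Fin 2) (Fin 2) ℂ),
        MvPolynomial.aeval (Sum.elim (constants a w) (entries N)) (MvPolynomial.rename Sum.inr P) =
          MvPolynomial.aeval (entries N) P := by
      intro N
      rw [MvPolynomial.aeval_rename]
      rfl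
    refine Pool.Agent.D0H75.LS.pure F hF P hP (fun N hN => ?_) M D hD hM
    have h1 := hx F hF hFd (MvPolynomial.rename Sum.inr P) ((MvPolynomial.totalDegree_rename_le _ _).trans hP)
      (by rw [hren]; exact h0) N hN
    rw [hren] at h1
    exact h1

end Pool.Agent.Results.MP_290158_ag.LegendreSUnits
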