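import Pool.Agent.D0H63.AR.Main
import Pool.Agent.Results.MP_290158_ag.AllRootsOfPolynomials

/-!
# Period relations at ALL conjugates of the algebraic points near to generic points: Legendre's family and its analogues with real
# multiplication

For a rational number `μ` in `(0, 1/2]` let `W_μ(x) = ∫_0^1 t^(-μ) (1 - t)^(μ - 1) (1 - x t)^(-μ) dt`. The numbers `W_μ(x)`,
`W_μ(1 - x)`, `W_μ'(x)` and `π` are (up to algebraic factors and the relations of Legendre and Elliott) the periods of a direct factor
of the cohomology of the curve `y^M = t (1 - t)^(M - 1) (1 - x t)`, `μ = k / M`; for `μ = 1/2` these are all periods of Legendre's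
elliptic curve `y² = t (1 - t) (1 - x t)`. The period conjecture predicts that the numbers `π`, `W_μ(x)`, `W_μ(1 - x)`, `W_μ'(x)` are
algebraically independent for algebraic `x` outside the Hodge locus, also for several points `x`.

The starting file `AllRootsOfPolynomials` considers all the roots of almost all integral polynomials of degree `g` with coefficients at
most `T`. This says nothing about the roots of the polynomials of a sparse family, and nothing about the algebraic numbers of degree
`g` near to a given number. Here we show, for any given `ξ_0, ξ_1, …` (for instance the powers of `π`) and any `τ > 0`: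

(1) There is a set `E` of Hausdorff dimension at most `g / τ` in `ℝ^g` (a null set if `τ > 1`) such that for all `ω` outside of `E` for
which `X^g + ω_(g-1) X^(g-1) + … + ω_0` has simple roots, different from `0` and `1`: for ALL finite sets `A` of rational numbers in
`(0, 1/2]`, all `k` and `C`, for all large `T`, for ALL integral polynomials `a_g X^g + … + a_0` with `|a_i| ≤ T` and
`|ω_i - a_i / a_g| ≤ C T^(-τ)`, the numbers `W_μ(x)`, `W_μ(1 - x)`, `W_μ'(x)` for ALL the roots `x` of the polynomial outside
`(-∞, 0]` and `[1, ∞)` and all `μ ∈ A` together satisfy no relation of degree at most `k` in each of them with coefficients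
`∑_{b < k} ξ_b c_b`, `c_b` integers of size at most `T^k` of a number field of degree at most `k`. By Dirichlet's theorem there are,
for `τ = 1 + 1 / g` and for every `ω`, such polynomials for arbitrarily large `T`. So the statement is true for all the best rational
approximations of almost every real polynomial.

(2) There is a set `E` of Hausdorff dimension at most `g / τ` in `ℂ` such that for all `x₀` outside of `E`, for all `A`, `k`, `C`, `R` and
`η > 0`, for all large `T`: the same is true for ALL integral polynomials of degree `g` with coefficients at most `T`, one root of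
which is within `C T^(-τ)` of `x₀`, and the roots of which are at most `R`, at distance at least `η` from each other and (those in the
domain) from the rays. The real numbers in `E` form a null set if `τ > g`, while (by the theorem of Sprindzhuk) for almost all
real `x₀` and every `τ < g + 1` there are infinitely many algebraic numbers of degree `g` with `|x₀ - α| ≤ H(α)^(-τ)`. So we have a
statement about all the conjugates of all the good algebraic approximations `α` of `x₀` of degree `g`.

Proof. The exceptional polynomials lie on `C T^ε` hypersurfaces (`Pool.Agent.X255.RH.excR_cov`), so that there are at most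
`C T^(g + ε)` of them, which is the number in the lemma of Hausdorff and Cantelli. Near a polynomial with simple roots different from
`0` and `1` the position of the roots is automatic (`Pool.Agent.D0H63.AR.near_inn`): a real root outside of the domain cannot become
complex.
-/

set_option autoImplicit false

namespace Pool.Agent.Results.MP_290158_ag.RootsOfApproximations

open Filter Polynomial MeasureTheory
open Pool.Agent.Results.MP_290158_ag.AllRootsOfPolynomials

/-- There is no relation of degree at most `k` in each of them between the numbers `W_μ(x)`, `W_μ(1 - x)`, `W_μ'(x)`, for all `μ ∈ A`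
and all the roots `x` in the domain of the polynomial with the coefficients `a`. -/
def Unrelated {g : ℕ} (A : Finset ℚ) (ξ : ℕ → ℂ) (k : ℕ) (T : ℝ) (a : Fin (g + 1) → ℤ) : Prop :=
  NoRelation ξ k T fun q : {x // x ∈ AllRootsOfPolynomials.roots a} × (A × Fin 3) => numbers ((q.2.1 : ℚ) : ℝ) q.1 q.2.2

/-- the polynomial `X^g + ω_(g-1) X^(g-1) + … + ω_0` -/
noncomputable def monic {g : ℕ} (ω : Fin g → ℝ) : ℂ[X] := X ^ g + ∑ i, C (ω i : ℂ) * X ^ (i : ℕ)

/-- the polynomial is of degree `g`, its roots are of absolute value at most `R`, at distance at least `η` from each other, and the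
roots in the domain at distance at least `η` from the complement of the domain -/
def Position {g : ℕ} (R η : ℝ) (a : Fin (g + 1) → ℤ) : Prop :=
  ∃ z : Fin g → ℂ, (a (Fin.last g) ≠ 0 ∧ poly a = C (a (Fin.last g) : ℂ) * ∏ j, (X - C (z j))) ∧ (∀ i, ‖z i‖ ≤ R) ∧
    (∀ i j, i ≠ j → η ≤ ‖z i - z j‖) ∧ ∀ i, z i ∈ domain → Metric.ball (z i) η ⊆ domain

theorem bdry : Pool.Agent.D0H63.AR.Bdry {0, 1} 1 domain domain := by
  refine ⟨one_pos, fun R => (Set.toFinite _).subset Set.inter_subset_left, fun z hz w hw => ?_⟩
  have hw' : (w.re ≤ 0 ∨ 1 ≤ w.re) ∧ w.im = 0 := by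
    have h1 : ¬ (w ∈ Complex.slitPlane ∧ 1 - w ∈ Complex.slitPlane) := hw
    rw [Complex.mem_slitPlane_iff, Complex.mem_slitPlane_iff] at h1
    simp only [Complex.sub_re, Complex.one_re, Complex.sub_im, Complex.one_im, zero_sub, neg_ne_zero] at h1
    by_cases him : w.im = 0
    · refine ⟨?_, him⟩
      by_contra h2
      push Not at h2
      exact h1 ⟨Or.inl h2.1, Or.inl (by linarith [h2.2])⟩
    · exact absurd ⟨Or.inr him, Or.inr him⟩ h1
  by_cases hzi : z.im = 0
  · left
    have hz1 : 0 < z.re := by
      rcases Complex.mem_slitPlane_iff.1 hz.1 with h | h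
      · exact h
      · exact absurd hzi h
    have hz2 : z.re < 1 := by
      rcases Complex.mem_slitPlane_iff.1 hz.2 with h | h
      · rw [Complex.sub_re, Complex.one_re] at h
        linarith
      · rw [Complex.sub_im, Complex.one_im, zero_sub, neg_ne_zero] at h
        exact absurd hzi h
    have hzr : z = (z.re : ℂ) := Complex.ext rfl (by rw [Complex.ofReal_im]; exact hzi)
    have hwr : w = (w.re : ℂ) := Complex.ext rfl (by rw [Complex.ofReal_im]; exact hw'.2)
    have h3 : ‖z - w‖ = |z.re - w.re| := by
      rw [hzr, hwr, ← Complex.ofReal_sub, Complex.norm_real, Real.norm_eq_abs]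
      simp
    rcases hw'.1 with h | h
    · refine ⟨0, Or.inl rfl, ?_⟩
      have h4 : ‖z - 0‖ = |z.re| := by
        rw [sub_zero, hzr, Complex.norm_real, Real.norm_eq_abs]
        simp
      rw [h3, h4, abs_of_pos hz1, abs_of_nonneg (by linarith)]
      linarith
    · refine ⟨1, Or.inr rfl, ?_⟩
      have h4 : ‖z - 1‖ = |z.re - 1| := by
        rw [hzr, ← Complex.ofReal_one, ← Complex.ofReal_sub, Complex.norm_real, Real.norm_eq_abs]
        simp
      rw [h3, h4, abs_of_neg (by linarith), abs_of_neg (by linarith)]
      linarith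
  · right
    left
    refine ⟨hzi, ?_⟩
    have h1 := Complex.abs_im_le_norm (z - w)
    rwa [Complex.sub_im, hw'.2, sub_zero] at h1

/-- **Theorem.** Let `g ≥ 1`, `τ > 0`, and let `ξ_0, ξ_1, …` be complex numbers.
(1) There is a set `E ⊂ ℝ^g` of Hausdorff dimension at most `g / τ` such that for all `ω` outside of `E` for which
`X^g + ω_(g-1) X^(g-1) + … + ω_0` has simple roots different from `0` and `1`, for all finite sets `A` of rational numbers in
`(0, 1/2]`, all `k` and `C`, for all large `T`, for all integral `a_0, …, a_g` with `|a_i| ≤ T`, `a_g ≠ 0` and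
`|ω_i - a_i / a_g| ≤ C T^(-τ)`: the numbers `W_μ(x)`, `W_μ(1 - x)`, `W_μ'(x)` at all the roots `x` in the domain, `μ ∈ A`, are
unrelated. `E` is a null set if `τ > 1`.
(2) There is a set `E ⊂ ℂ` of Hausdorff dimension at most `g / τ` such that for all `x₀` outside of `E`, all `A`, `k`, `C`, `R` and
`η > 0`, for all large `T`, the same is true for all integral polynomials with coefficients at most `T`, roots in position `(R, η)`, and
a root within `C T^(-τ)` of `x₀`. The real numbers in `E` are a null set if `τ > g`. -/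
theorem result (g : ℕ) (hg : 0 < g) (ξ : ℕ → ℂ) (τ : ℝ) (hτ : 0 < τ) :
    (∃ E : Set (Fin g → ℝ), dimH E ≤ ENNReal.ofReal (g / τ) ∧ (1 < τ → volume E = 0) ∧
      ∀ ω ∉ E, (monic ω).Separable → (monic ω).eval 0 ≠ 0 → (monic ω).eval 1 ≠ 0 →
        ∀ A : Finset ℚ, (∀ μ ∈ A, 0 < μ ∧ μ ≤ 1 / 2) → ∀ (k : ℕ) (C : ℝ), ∀ᶠ T : ℝ in atTop,
          ∀ a : Fin (g + 1) → ℤ, (∀ i, |(a i : ℝ)| ≤ T) → a (Fin.last g) ≠ 0 →
            (∀ i : Fin g, |ω i - (a i.castSucc : ℝ) / a (Fin.last g)| ≤ C * T ^ (-τ)) → Unrelated A ξ k T a) ∧
    (∃ E : Set ℂ, dimH E ≤ ENNReal.ofReal (g / τ) ∧ ((g : ℝ) < τ → volume {x : ℝ | (x : ℂ) ∈ E} = 0) ∧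
      ∀ x₀ ∉ E, ∀ A : Finset ℚ, (∀ μ ∈ A, 0 < μ ∧ μ ≤ 1 / 2) → ∀ (k : ℕ) (C R η : ℝ), 0 < η → ∀ᶠ T : ℝ in atTop,
        ∀ a : Fin (g + 1) → ℤ, (∀ i, |(a i : ℝ)| ≤ T) → Position R η a →
          (∃ z, (poly a).eval z = 0 ∧ ‖x₀ - z‖ ≤ C * T ^ (-τ)) → Unrelated A ξ k T a) := by
  classical
  have hg' : (0 : ℝ) < g := by exact_mod_cast hg
  refine ⟨?_, ?_⟩
  · choose E hE hE' using fun A : {A : Finset ℚ // ∀ μ ∈ A, 0 < μ ∧ μ ≤ 1 / 2} =>
      D0H63.AR.near_poly hg Pool.Agent.N156.HG.conn_DD Pool.Agent.N156.HG.isOpen_DD (an A.1 A.2) (ind A.1 A.2) bdry ξ hτ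
    have hdim : dimH (⋃ A, E A) ≤ ENNReal.ofReal (g / τ) := by
      rw [dimH_iUnion]
      exact iSup_le hE
    refine ⟨⋃ A, E A, hdim, fun h1 => ?_, fun ω hω hsep h0 h1 A hA k C => ?_⟩
    · refine N251.LF.null_of_dim hdim ?_ (by rw [Fintype.card_fin]; exact hg)
      rw [Fintype.card_fin, div_lt_iff₀ hτ]
      nlinarith
    · have h2 := hE' ⟨A, hA⟩ ω (fun h => hω (Set.mem_iUnion.2 ⟨_, h⟩)) hsep (by
        rintro p (rfl | hp)
        · exact h0
        · rw [Set.mem_singleton_iff.1 hp]
          exact h1) k C
      exact h2.mono fun T hT a ha ha0 hclose => hT a ha ha0 hclose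
  · choose E hE hE' using fun A : {A : Finset ℚ // ∀ μ ∈ A, 0 < μ ∧ μ ≤ 1 / 2} =>
      D0H63.AR.near_number hg Pool.Agent.N156.HG.conn_DD Pool.Agent.N156.HG.isOpen_DD (an A.1 A.2) (ind A.1 A.2) domain ξ hτ
    have hdim : dimH (⋃ A, E A) ≤ ENNReal.ofReal (g / τ) := by
      rw [dimH_iUnion]
      exact iSup_le hE
    refine ⟨⋃ A, E A, hdim, fun h1 => ?_, fun x₀ hx A hA k C R η hη => ?_⟩
    · refine D0H63.AR.null_line hdim ?_
      rw [div_lt_one hτ]
      exact h1
    · have h2 := hE' ⟨A, hA⟩ x₀ (fun h => hx (Set.mem_iUnion.2 ⟨_, h⟩)) k C R η hη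
      exact h2.mono fun T hT a ha hpos hz => hT a ha hpos hz

end Pool.Agent.Results.MP_290158_ag.RootsOfApproximations
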